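import Pool.Agent.Y748.SR.Stm7

/-! Project SR, part 4: negative correlation (`t_NC`, `t_BD`). -/

open Finset Filter Topology

set_option autoImplicit false

namespace Pool.Agent.Y421.SR

open Pool.Agent.Y748.SR

theorem pw_insert {X : Type} [DecidableEq X] (f : Finset X → ℝ) (C Y : Finset X) (w : X → ℝ)
    {j : X} (hj : j ∉ Y) : PW f C (insert j Y) w = PW f C Y w + w j * PW f (insert j C) Y w := by
  unfold PW
  rw [Finset.sum_powerset_insert hj, Finset.mul_sum]
  congr 1
  refine Finset.sum_congr rfl fun B hB => ?_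
  have hjB : j ∉ B := fun h => hj (Finset.mem_powerset.1 hB h)
  rw [Finset.prod_insert hjB, Finset.union_insert, Finset.insert_union]
  ring

theorem pw_nonneg {X : Type} [DecidableEq X] {f : Finset X → ℝ} (hf : ∀ B, 0 ≤ f B)
    (C Y : Finset X) {w : X → ℝ} (hw : ∀ i, 0 ≤ w i) : 0 ≤ PW f C Y w :=
  Finset.sum_nonneg fun _ _ => mul_nonneg (hf _) (Finset.prod_nonneg fun i _ => hw i)

theorem pw_pos {X : Type} [DecidableEq X] {f : Finset X → ℝ} (hf : ∀ B, 0 ≤ f B) (h0 : f ∅ = 1)
    (Y : Finset X) {w : X → ℝ} (hw : ∀ i, 0 ≤ w i) : 0 < PW f ∅ Y w := by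
  unfold PW
  refine lt_of_lt_of_le one_pos ?_
  have h := Finset.single_le_sum (f := fun B => f (∅ ∪ B) * ∏ i ∈ B, w i) (s := Y.powerset)
    (fun B _ => mul_nonneg (hf _) (Finset.prod_nonneg fun i _ => hw i)) (Finset.empty_mem_powerset Y)
  simp only [Finset.union_empty, h0, Finset.prod_empty, mul_one] at h
  exact h

theorem pw_le {X : Type} [DecidableEq X] {f : Finset X → ℝ} (hR : Ray f) (hf : ∀ B, 0 ≤ f B)
    (h0 : f ∅ = 1) (h1 : ∀ i, f {i} = 1) {w : X → ℝ} (hw : ∀ i, 0 ≤ w i) {i : X} (Y : Finset X) :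
    i ∉ Y → PW f {i} Y w ≤ PW f ∅ Y w := by
  induction Y using Finset.induction_on with
  | empty =>
    intro _
    unfold PW
    simp [h0, h1]
  | insert j Y hj ih =>
    intro hi
    have hij : i ≠ j := by
      rintro rfl
      exact hi (Finset.mem_insert_self _ _)
    have hiY : i ∉ Y := fun h => hi (Finset.mem_insert_of_mem h)
    have h2 := ih hiY
    rw [pw_insert f _ Y w hj, pw_insert f _ Y w hj]
    have h3 := hR ∅ Y i j w hij (Finset.notMem_empty _) (Finset.notMem_empty _) hiY hj
      (Finset.disjoint_empty_left _)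
    unfold RayI at h3
    have e1 : insert j ({i} : Finset X) = insert i (insert j ∅) := by
      ext x
      simp only [Finset.mem_insert, Finset.mem_singleton, Finset.notMem_empty, or_false]
      exact or_comm
    rw [e1]
    have hP := pw_pos hf h0 Y hw
    have hPj := pw_nonneg hf (insert j ∅) Y hw
    have e2 : (insert i ∅ : Finset X) = {i} := rfl
    rw [e2] at h3
    have h4 : PW f (insert i (insert j ∅)) Y w ≤ PW f (insert j ∅) Y w := by
      have h5 : PW f ∅ Y w * PW f (insert i (insert j ∅)) Y w ≤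
          PW f ∅ Y w * PW f (insert j ∅) Y w :=
        h3.trans (mul_le_mul_of_nonneg_right h2 hPj)
      exact le_of_mul_le_mul_left h5 hP
    have h5 := mul_le_mul_of_nonneg_left h4 (hw j)
    linarith

theorem t_NC : S_NC := by
  intro X _ f hR hf h0 h1 B i hi
  have h2 : ∀ t : ℝ, 0 < t → 0 ≤ ∑ A ∈ B.powerset, (f A - f (insert i A)) * (t ^ A.card / t ^ B.card) := by
    intro t ht
    have h3 := pw_le hR hf h0 h1 (w := fun _ => t) (fun _ => ht.le) B hi
    unfold PW at h3
    rw [← sub_nonneg, ← Finset.sum_sub_distrib] at h3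
    have e : ∑ A ∈ B.powerset, (f A - f (insert i A)) * (t ^ A.card / t ^ B.card) =
        (∑ A ∈ B.powerset, (f (∅ ∪ A) * ∏ _j ∈ A, t - f ({i} ∪ A) * ∏ _j ∈ A, t)) / t ^ B.card := by
      rw [Finset.sum_div]
      refine Finset.sum_congr rfl fun A _ => ?_
      rw [Finset.prod_const, Finset.empty_union, Finset.singleton_union]
      ring
    rw [e]
    exact div_nonneg h3 (pow_pos ht _).le
  have h3 : Tendsto (fun t : ℝ => ∑ A ∈ B.powerset,
      (f A - f (insert i A)) * (t ^ A.card / t ^ B.card)) atTop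
      (𝓝 (∑ A ∈ B.powerset, (f A - f (insert i A)) * (if A = B then 1 else 0))) := by
    refine tendsto_finsetSum _ fun A hA => Tendsto.const_mul _ ?_
    by_cases hAB : A = B
    · rw [if_pos hAB, hAB]
      refine tendsto_const_nhds.congr' ?_
      filter_upwards [eventually_gt_atTop 0] with t ht
      rw [div_self (pow_pos ht _).ne']
    · rw [if_neg hAB]
      exact tendsto_pow_div_pow_atTop_zero
        (Finset.card_lt_card ((Finset.mem_powerset.1 hA).ssubset_of_ne hAB))
  have h4 : 0 ≤ ∑ A ∈ B.powerset, (f A - f (insert i A)) * (if A = B then 1 else 0) := by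
    refine ge_of_tendsto h3 ?_
    filter_upwards [eventually_gt_atTop 0] with t ht
    exact h2 t ht
  simp only [mul_ite, mul_one, mul_zero] at h4
  rw [Finset.sum_ite_eq' , if_pos (Finset.mem_powerset_self B)] at h4
  linarith

/-- the value on a subset -/
theorem val {k : ℕ} (m : Mom) (a b : Fin k → ℝ) (B : Finset (Fin k)) (n : ℕ) (h : B.card = n)
    (g : Fin n → Fin k) (hg : ∀ i, g i ∈ B) (hm : StrictMono g) :
    m B.card (fun i => a (B.orderEmbOfFin rfl i)) (fun i => b (B.orderEmbOfFin rfl i)) =
      m n (fun i => a (g i)) (fun i => b (g i)) := by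
  subst h
  have h1 := Finset.orderEmbOfFin_unique rfl hg hm
  rw [h1]

theorem dis_comp {k n : ℕ} {a b : Fin k → ℝ} (h : Dis a b) {g : Fin n → Fin k}
    (hg : StrictMono g) : Dis (fun i => a (g i)) (fun i => b (g i)) :=
  ⟨fun i => h.1 _, fun _ _ hij => h.2 _ _ (hg hij)⟩

theorem t_BD : S_RAY → S_NC → S_BD := by
  intro hRAY hNC m hm hs k a b hab
  have hpos : ∀ i, 0 < b i - a i := fun i => sub_pos.2 (hab.1 i)
  let f : Finset (Fin k) → ℝ := fun B =>
    m B.card (fun i => a (B.orderEmbOfFin rfl i)) (fun i => b (B.orderEmbOfFin rfl i)) /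
      ∏ i ∈ B, (b i - a i)
  have hf : ∀ B, 0 ≤ f B := fun B =>
    div_nonneg (hm.nonneg _ _ _ (dis_comp hab (B.orderEmbOfFin rfl).strictMono))
      (Finset.prod_nonneg fun i _ => (hpos i).le)
  have h0 : f ∅ = 1 := by
    show m (∅ : Finset (Fin k)).card _ _ / _ = 1
    rw [val m a b ∅ 0 rfl Fin.elim0 (fun i => i.elim0) (fun i => i.elim0), hm.zero,
      Finset.prod_empty, div_one]
  have h1 : ∀ i, f {i} = 1 := by
    intro i
    show m ({i} : Finset (Fin k)).card _ _ / _ = 1
    rw [val m a b {i} 1 (Finset.card_singleton i) (fun _ => i) (fun _ => Finset.mem_singleton_self i)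
      (fun x y hxy => by
        have := Subsingleton.elim x y
        rw [this] at hxy
        exact absurd hxy (lt_irrefl _)), hm.one _ _ (hab.1 i), Finset.prod_singleton,
      div_self (hpos i).ne']
  have hst : Stable f := by
    intro Y z hz
    let e := Y.orderEmbOfFin rfl
    have hmap : ∀ S : Finset (Fin Y.card), (S.map e.toEmbedding) ⊆ Y := by
      intro S x hx
      rw [Finset.mem_map] at hx
      obtain ⟨s, _, rfl⟩ := hx
      exact Finset.orderEmbOfFin_mem Y rfl s
    have h2 := hs Y.card (fun i => a (e i)) (fun i => b (e i)) (dis_comp hab e.strictMono)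
      (fun i => z (e i) / ((b (e i) - a (e i) : ℝ) : ℂ)) (fun i => by
        rw [Complex.div_ofReal_im]
        exact div_pos (hz _ (Finset.orderEmbOfFin_mem Y rfl i)) (hpos _))
    intro h3
    apply h2
    rw [← h3]
    refine Finset.sum_bij (fun S _ => S.map e.toEmbedding) ?_ ?_ ?_ ?_
    · intro S _
      exact Finset.mem_powerset.2 (hmap S)
    · intro S _ S' _ h
      exact Finset.map_injective _ h
    · intro B hB
      refine ⟨Finset.univ.filter fun s => e s ∈ B, Finset.mem_univ _, ?_⟩
      ext x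
      rw [Finset.mem_map]
      constructor
      · rintro ⟨s, hs, rfl⟩
        exact (Finset.mem_filter.1 hs).2
      · intro hx
        have h4 : x ∈ Set.range e := by
          rw [Finset.range_orderEmbOfFin]
          exact Finset.mem_powerset.1 hB hx
        obtain ⟨s, rfl⟩ := h4
        exact ⟨s, Finset.mem_filter.2 ⟨Finset.mem_univ _, hx⟩, rfl⟩
    · intro S _
      have e1 := val m a b (S.map e.toEmbedding) S.card (Finset.card_map _)
        (fun i => e (S.orderEmbOfFin rfl i)) (fun i => by
          rw [Finset.mem_map]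
          exact ⟨_, Finset.orderEmbOfFin_mem S rfl i, rfl⟩)
        (e.strictMono.comp (S.orderEmbOfFin rfl).strictMono)
      show _ = ((m (S.map e.toEmbedding).card _ _ / _ : ℝ) : ℂ) * _
      rw [e1, Finset.prod_map, Finset.prod_map, Finset.prod_div_distrib]
      push_cast
      simp only [RelEmbedding.coe_toEmbedding]
      ring
  have hR : Ray f := hRAY _ f hst
  have hle : ∀ B, f B ≤ 1 := by
    intro B
    induction B using Finset.induction_on with
    | empty => exact h0.le
    | insert i B hi ih => exact (hNC _ f hR hf h0 h1 B i hi).trans ih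
  have h5 := hle Finset.univ
  have h6 : f Finset.univ = m k a b / ∏ i, (b i - a i) := by
    show m (Finset.univ : Finset (Fin k)).card _ _ / _ = _
    rw [val m a b Finset.univ k (by simp) id (fun i => Finset.mem_univ _) strictMono_id]
    rfl
  rw [h6, div_le_one (Finset.prod_pos fun i _ => hpos i)] at h5
  exact h5

end Pool.Agent.Y421.SR
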