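import Pool.Agent.Y748.SR.Stm7
import Pool.Agent.Y748.Tent

/-! Project SR, part 4: trapezoid test functions (`t_TRAP`). -/

open MeasureTheory

set_option autoImplicit false

namespace Pool.Agent.Y421.SR

open Pool.Agent.Y748 (tent tent_cont tent_neg tent_zero_of tent_shift)
open Pool.Agent.Y748.SR

/-- the transform of a tent -/
theorem rr_tn {κ : ℝ} (hκ : 0 < κ) (hκ1 : κ < 1) (x : ℝ) :
    rr (fun a => tent (κ⁻¹ * a)) x = κ * Real.sinc (Real.pi * κ * x) ^ 2 := by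
  unfold rr
  rw [intervalIntegral.integral_eq_integral_of_support_subset]
  · have h := tent_shift (inv_pos.2 hκ) 0 (2 * Real.pi * x)
    simp only [sub_zero, mul_zero, zero_div, Real.cos_zero, one_mul, inv_inv] at h
    rw [h]
    congr 3
    field_simp
  · intro a ha
    by_contra hcon
    apply ha
    have h1 : 1 ≤ |κ⁻¹ * a| := by
      rw [abs_mul, abs_of_pos (inv_pos.2 hκ), ← div_eq_inv_mul, le_div_iff₀ hκ, one_mul]
      have h2 : 1 ≤ |a| := by
        by_contra h2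
        rw [not_le, abs_lt] at h2
        exact hcon ⟨by linarith [h2.1], by linarith [h2.2]⟩
      linarith
    show tent (κ⁻¹ * a) * _ = 0
    rw [tent_zero_of h1, zero_mul]

theorem sinc_sq (y : ℝ) : y ^ 2 * Real.sinc y ^ 2 ≤ 1 := by
  by_cases hy : y = 0
  · rw [hy]; norm_num
  · rw [Real.sinc_of_ne_zero hy, div_pow, mul_div_cancel₀ _ (pow_ne_zero 2 hy)]
    exact Real.sin_sq_le_one y

theorem tn_dec {κ : ℝ} (hκ : 0 < κ) (x : ℝ) :
    κ * Real.sinc (Real.pi * κ * x) ^ 2 ≤ (κ + 1 / (Real.pi ^ 2 * κ)) / (1 + x ^ 2) := by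
  have hp := Real.pi_pos
  rw [le_div_iff₀ (by positivity)]
  have h1 := sinc_sq (Real.pi * κ * x)
  have h2 : Real.sinc (Real.pi * κ * x) ^ 2 ≤ 1 := by
    rw [sq_le_one_iff_abs_le_one]
    exact Real.abs_sinc_le_one _
  set s := Real.sinc (Real.pi * κ * x) ^ 2 with hs
  have h3 : κ * s * x ^ 2 ≤ 1 / (Real.pi ^ 2 * κ) := by
    rw [le_div_iff₀ (by positivity)]
    calc κ * s * x ^ 2 * (Real.pi ^ 2 * κ) = (Real.pi * κ * x) ^ 2 * s := by ring
      _ ≤ 1 := h1
  nlinarith [mul_le_mul_of_nonneg_left h2 hκ.le]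

/-- the trapezoid -/
noncomputable def trap (κ1 κ2 a : ℝ) : ℝ :=
  (κ2 * tent (κ2⁻¹ * a) - κ1 * tent (κ1⁻¹ * a)) / (κ2 - κ1)

theorem trap_cont (κ1 κ2 : ℝ) : Continuous (trap κ1 κ2) := by
  unfold trap tent
  fun_prop

theorem tn_in {κ a : ℝ} (hκ : 0 < κ) (ha : |a| ≤ κ) : κ * tent (κ⁻¹ * a) = κ - |a| := by
  unfold tent
  rw [abs_mul, abs_of_pos (inv_pos.2 hκ), max_eq_right]
  · field_simp
  · rw [sub_nonneg, ← div_eq_inv_mul, div_le_one hκ]
    exact ha

theorem tn_out {κ a : ℝ} (hκ : 0 < κ) (ha : κ ≤ |a|) : κ * tent (κ⁻¹ * a) = 0 := by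
  rw [tent_zero_of, mul_zero]
  rw [abs_mul, abs_of_pos (inv_pos.2 hκ), ← div_eq_inv_mul, le_div_iff₀ hκ, one_mul]
  exact ha

theorem rr_add {f g : ℝ → ℝ} (hf : Continuous f) (hg : Continuous g) (x : ℝ) :
    rr (fun a => f a + g a) x = rr f x + rr g x := by
  unfold rr
  rw [← intervalIntegral.integral_add]
  · congr 1
    funext a
    ring
  · exact Continuous.intervalIntegrable (by fun_prop) _ _
  · exact Continuous.intervalIntegrable (by fun_prop) _ _

theorem rr_mul {f : ℝ → ℝ} (c x : ℝ) : rr (fun a => c * f a) x = c * rr f x := by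
  unfold rr
  rw [← intervalIntegral.integral_const_mul]
  congr 1
  funext a
  ring

theorem rr_cos {f : ℝ → ℝ} (hf : Continuous f) (v x : ℝ) :
    rr (fun a => Real.cos (2 * Real.pi * v * a) * f a) x =
      1 / 2 * (rr f (x + v) + rr f (x - v)) := by
  unfold rr
  rw [← intervalIntegral.integral_add, ← intervalIntegral.integral_const_mul]
  · congr 1
    funext a
    have e1 : 2 * Real.pi * (x + v) * a = 2 * Real.pi * x * a + 2 * Real.pi * v * a := by ring
    have e2 : 2 * Real.pi * (x - v) * a = 2 * Real.pi * x * a - 2 * Real.pi * v * a := by ring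
    rw [e1, e2, Real.cos_add, Real.cos_sub]
    ring
  · exact Continuous.intervalIntegrable (by fun_prop) _ _
  · exact Continuous.intervalIntegrable (by fun_prop) _ _

theorem trap_dec {κ1 κ2 : ℝ} (h1 : 0 < κ1) (h12 : κ1 < κ2) (h2 : κ2 < 1) :
    ∃ K : ℝ, 0 ≤ K ∧ ∀ x, |rr (trap κ1 κ2) x| ≤ K / (1 + x ^ 2) := by
  have hκ2 : 0 < κ2 := h1.trans h12
  have hd : 0 < κ2 - κ1 := sub_pos.2 h12
  have hp := Real.pi_pos
  refine ⟨(κ2 * (κ2 + 1 / (Real.pi ^ 2 * κ2)) + κ1 * (κ1 + 1 / (Real.pi ^ 2 * κ1))) / (κ2 - κ1),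
    by positivity, fun x => ?_⟩
  have e : rr (trap κ1 κ2) x = (κ2 * (κ2 * Real.sinc (Real.pi * κ2 * x) ^ 2) -
      κ1 * (κ1 * Real.sinc (Real.pi * κ1 * x) ^ 2)) / (κ2 - κ1) := by
    rw [← rr_tn hκ2 h2, ← rr_tn h1 (h12.trans h2)]
    have e1 : trap κ1 κ2 = fun a => κ2 / (κ2 - κ1) * tent (κ2⁻¹ * a) +
        (-(κ1 / (κ2 - κ1))) * tent (κ1⁻¹ * a) := by
      funext a
      unfold trap
      field_simp
      ring
    rw [e1, rr_add (f := fun a => κ2 / (κ2 - κ1) * tent (κ2⁻¹ * a))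
      (g := fun a => (-(κ1 / (κ2 - κ1))) * tent (κ1⁻¹ * a)) (by unfold tent; fun_prop)
      (by unfold tent; fun_prop), rr_mul, rr_mul]
    field_simp
    ring
  have ha := tn_dec hκ2 x
  have hb := tn_dec h1 x
  have ha0 : 0 ≤ κ2 * Real.sinc (Real.pi * κ2 * x) ^ 2 := by positivity
  have hb0 : 0 ≤ κ1 * Real.sinc (Real.pi * κ1 * x) ^ 2 := by positivity
  rw [e, abs_div, abs_of_pos hd, div_div, mul_comm (κ2 - κ1), ← div_div]
  refine div_le_div_of_nonneg_right ?_ hd.le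
  have ha' := mul_le_mul_of_nonneg_left ha hκ2.le
  have hb' := mul_le_mul_of_nonneg_left hb h1.le
  have e3 : (κ2 * (κ2 + 1 / (Real.pi ^ 2 * κ2)) + κ1 * (κ1 + 1 / (Real.pi ^ 2 * κ1))) / (1 + x ^ 2) =
      κ2 * ((κ2 + 1 / (Real.pi ^ 2 * κ2)) / (1 + x ^ 2)) +
        κ1 * ((κ1 + 1 / (Real.pi ^ 2 * κ1)) / (1 + x ^ 2)) := by ring
  rw [e3, abs_le]
  have h3 := mul_nonneg hκ2.le ha0
  have h4 := mul_nonneg h1.le hb0
  constructor <;> linarith

theorem shift_le (x v : ℝ) : 1 / (1 + (x + v) ^ 2) ≤ 2 * (1 + v ^ 2) / (1 + x ^ 2) := by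
  rw [div_le_div_iff₀ (by positivity) (by positivity)]
  nlinarith [sq_nonneg (x + 2 * v), sq_nonneg (v * (x + v)), sq_nonneg (x + v)]

theorem t_TRAP : S_TRAP := by
  intro κ1 κ2 h1 h12 h2
  have hκ2 : 0 < κ2 := h1.trans h12
  have hd : 0 < κ2 - κ1 := sub_pos.2 h12
  refine ⟨trap κ1 κ2, ?_, ?_, ?_⟩
  · intro a
    unfold trap
    rw [le_div_iff₀ hd, div_le_one hd, zero_mul]
    rcases le_total |a| κ1 with ha | ha
    · rw [tn_in h1 ha, tn_in hκ2 (ha.trans h12.le)]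
      constructor <;> linarith
    · rw [tn_out h1 ha]
      rcases le_total |a| κ2 with hb | hb
      · rw [tn_in hκ2 hb]
        constructor <;> linarith
      · rw [tn_out hκ2 hb]
        constructor <;> linarith
  · intro a ha
    unfold trap
    rw [tn_in h1 ha, tn_in hκ2 (ha.trans h12.le), div_eq_one_iff_eq hd.ne']
    ring
  · intro A B v
    obtain ⟨K, hK, hdec⟩ := trap_dec h1 h12 h2
    have hc := trap_cont κ1 κ2
    refine ⟨by fun_prop, ?_, ?_, |A| * K + |B| * (K * (2 * (1 + v ^ 2))), ?_⟩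
    · intro a
      have e : trap κ1 κ2 (-a) = trap κ1 κ2 a := by
        unfold trap
        rw [mul_neg, mul_neg, tent_neg, tent_neg]
      rw [mul_neg, Real.cos_neg, e]
    · intro a ha
      unfold trap
      rw [tn_out h1 (h12.le.trans ha), tn_out hκ2 ha]
      simp
    · intro x
      have e : rr (fun a => (A + B * Real.cos (2 * Real.pi * v * a)) * trap κ1 κ2 a) x =
          A * rr (trap κ1 κ2) x + B * (1 / 2 * (rr (trap κ1 κ2) (x + v) + rr (trap κ1 κ2) (x - v))) := by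
        rw [← rr_cos hc, ← rr_mul, ← rr_mul, ← rr_add (by fun_prop) (by fun_prop)]
        congr 1
        funext a
        ring
      rw [e]
      have h3 := hdec x
      have h4 : |rr (trap κ1 κ2) (x + v)| ≤ K * (2 * (1 + v ^ 2)) / (1 + x ^ 2) := by
        refine (hdec (x + v)).trans ?_
        have := mul_le_mul_of_nonneg_left (shift_le x v) hK
        calc K / (1 + (x + v) ^ 2) = K * (1 / (1 + (x + v) ^ 2)) := by ring
          _ ≤ _ := this
          _ = _ := by ring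
      have h5 : |rr (trap κ1 κ2) (x - v)| ≤ K * (2 * (1 + v ^ 2)) / (1 + x ^ 2) := by
        refine (hdec (x - v)).trans ?_
        have := mul_le_mul_of_nonneg_left (shift_le x (-v)) hK
        calc K / (1 + (x - v) ^ 2) = K * (1 / (1 + (x + -v) ^ 2)) := by ring
          _ ≤ _ := this
          _ = _ := by ring
      calc |A * rr (trap κ1 κ2) x + B * (1 / 2 * (rr (trap κ1 κ2) (x + v) + rr (trap κ1 κ2) (x - v)))|
          ≤ |A| * |rr (trap κ1 κ2) x| +
            |B| * (1 / 2 * (|rr (trap κ1 κ2) (x + v)| + |rr (trap κ1 κ2) (x - v)|)) := by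
            refine (abs_add_le _ _).trans ?_
            rw [abs_mul, abs_mul, abs_mul, abs_of_pos (by norm_num : (0 : ℝ) < 1 / 2)]
            have := abs_add_le (rr (trap κ1 κ2) (x + v)) (rr (trap κ1 κ2) (x - v))
            gcongr
        _ ≤ |A| * (K / (1 + x ^ 2)) + |B| * (1 / 2 * (K * (2 * (1 + v ^ 2)) / (1 + x ^ 2) +
            K * (2 * (1 + v ^ 2)) / (1 + x ^ 2))) := by gcongr
        _ = _ := by ring

end Pool.Agent.Y421.SR
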