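import Mathlib
import Pool.Agent.Y748.SR.Stm2

/-! Project SR: Fourier inversion at the origin (`t_INV`). -/

open MeasureTheory Filter Topology FourierTransform

set_option autoImplicit false

namespace Pool.Agent.Y421.SR

open Pool.Agent.Y748.SR

lemma four_eq {R : ℝ → ℝ} {κ : ℝ} (hκ1 : κ < 1) (hR : TFn R κ)
    (hfi : Integrable (fun α => (R α : ℂ))) (x : ℝ) :
    𝓕 (fun α => (R α : ℂ)) x = (rr R x : ℂ) := by
  have h1 : 𝓕 (fun α => (R α : ℂ)) x =
      ∫ v : ℝ, Complex.exp (((-2 * Real.pi * v * x : ℝ) : ℂ) * Complex.I) * (R v : ℂ) := by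
    rw [Real.fourier_real_eq_integral_exp_smul]
    rfl
  have h2 : 𝓕 (fun α => (R α : ℂ)) x =
      ∫ v : ℝ, Complex.exp (((2 * Real.pi * v * x : ℝ) : ℂ) * Complex.I) * (R v : ℂ) := by
    rw [h1, ← integral_neg_eq_self]
    refine integral_congr_ae (Eventually.of_forall fun v => ?_)
    simp only [hR.even]
    congr 3
    push_cast
    ring
  have hi : ∀ c : ℝ, Integrable (fun v : ℝ =>
      Complex.exp (((c * Real.pi * v * x : ℝ) : ℂ) * Complex.I) * (R v : ℂ)) := by
    intro c
    refine (hfi.norm).mono' (Continuous.aestronglyMeasurable ?_) (Eventually.of_forall fun v => ?_)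
    · have := hR.cont
      fun_prop
    · rw [norm_mul, Complex.norm_exp_ofReal_mul_I, one_mul]
  have h3 : 𝓕 (fun α => (R α : ℂ)) x =
      ∫ v : ℝ, ((R v * Real.cos (2 * Real.pi * x * v) : ℝ) : ℂ) := by
    have h4 : 𝓕 (fun α => (R α : ℂ)) x = (𝓕 (fun α => (R α : ℂ)) x +
        𝓕 (fun α => (R α : ℂ)) x) / 2 := by ring
    rw [h4]
    nth_rewrite 1 [h1]
    rw [h2, ← integral_add (hi (-2)) (hi 2), ← integral_div]
    refine integral_congr_ae (Eventually.of_forall fun v => ?_)
    simp only
    have h5 : ((-2 * Real.pi * v * x : ℝ) : ℂ) = -((2 * Real.pi * x * v : ℝ) : ℂ) := by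
      push_cast; ring
    have h6 : ((2 * Real.pi * v * x : ℝ) : ℂ) = ((2 * Real.pi * x * v : ℝ) : ℂ) := by
      push_cast; ring
    rw [h5, h6, Complex.ofReal_mul (R v), Complex.ofReal_cos, Complex.cos]
    ring
  rw [h3, integral_complex_ofReal]
  congr 1
  unfold rr
  rw [intervalIntegral.integral_of_le (by norm_num)]
  symm
  refine setIntegral_eq_integral_of_forall_compl_eq_zero fun v hv => ?_
  have : R v = 0 := by
    refine hR.supp v ?_
    rw [Set.mem_Ioc, not_and_or, not_lt, not_le] at hv
    rcases hv with h | h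
    · rw [abs_of_neg (by linarith)]; linarith
    · rw [abs_of_pos (by linarith)]; linarith
  rw [this, zero_mul]

theorem t_INV : S_INV := by
  intro R κ hκ hκ1 hR
  obtain ⟨K, hK⟩ := hR.decay
  have hfc : Continuous fun α => (R α : ℂ) := Complex.continuous_ofReal.comp hR.cont
  have hcs : HasCompactSupport fun α => (R α : ℂ) :=
    HasCompactSupport.intro (isCompact_Icc (a := -κ) (b := κ)) fun α hα => by
      have : R α = 0 := hR.supp α (by
        by_contra h
        rw [not_le, abs_lt] at h
        exact hα ⟨h.1.le, h.2.le⟩)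
      simp [this]
  have hfi : Integrable fun α => (R α : ℂ) := hfc.integrable_of_hasCompactSupport hcs
  have hF : 𝓕 (fun α => (R α : ℂ)) = fun x => (rr R x : ℂ) :=
    funext fun x => four_eq hκ1 hR hfi x
  have hFc : Continuous (𝓕 (fun α => (R α : ℂ))) :=
    VectorFourier.fourierIntegral_continuous Real.continuous_fourierChar
      (innerSL ℝ).continuous₂ hfi
  have hFi : Integrable (𝓕 (fun α => (R α : ℂ))) := by
    refine Integrable.mono' (integrable_inv_one_add_sq.const_mul K)
      hFc.aestronglyMeasurable (Eventually.of_forall fun x => ?_)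
    rw [hF]
    simp only [Complex.norm_real, Real.norm_eq_abs]
    have := hK x
    rwa [div_eq_mul_inv] at this
  have h1 := congrFun (hfc.fourierInv_fourier_eq hfi hFi) 0
  rw [Real.fourierInv_eq'] at h1
  simp only [inner_zero_right, mul_zero, Complex.ofReal_zero, zero_mul, Complex.exp_zero,
    one_smul] at h1
  rw [hF, integral_complex_ofReal] at h1
  exact_mod_cast h1

end Pool.Agent.Y421.SR
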